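import Pool.Agent.Helper95.HV.Stmts
import Pool.Agent.Helper84.LN.EID
import Pool.Agent.Helper76.LN.FF

/-!
# Sheet HV, row DIP: energy of dipoles in different balls
-/

set_option autoImplicit false

namespace Pool.Agent.Helper12.HV

open MeasureTheory Filter Topology Pool.Agent.Helper95.PW Pool.Agent.Helper95.LN
open Pool.Agent.Helper95.CF Pool.Agent.Helper95.HV
open Pool.Agent.Helper84.LN (eid_norm_le eid_nr0 eid_shift eid_b2 eid_int4 eid_pd_sub eid_pd_mul
  eid_cd eid_cs eid_ibp eid_cut)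
open Pool.Agent.Helper76.LN.FF76 (nr_tri nr_comm nr_cont pd_comm pd_sum3 lap_pd pd_zero et_int
  nr_nonneg)

theorem dip_hess (h3 : ST_PHB) (b : ℝ) (hb : 0 < b) (hs : ContDiff ℝ (⊤ : ℕ∞) (ph b))
    (i m : Fin 3) (y : R3) (hy : b < nr y) :
    pd i (pd m (ph b)) y = 3 * y i * y m / nr y ^ 5 - (if i = m then 1 else 0) / nr y ^ 3 := by
  have hsm := eid_cd m hs
  have hd : HasFDerivAt (pd m (ph b)) (fderiv ℝ (pd m (ph b)) y) y :=
    ((hsm.differentiable (by simp)) y).hasFDerivAt
  have h1 : HasDerivAt (fun t : ℝ => pd m (ph b) (y + t • (Pi.single i 1 : R3)))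
      (pd i (pd m (ph b)) y) 0 := hd.hasLineDerivAt _
  have hev : (fun t : ℝ => -((y m + t * (if i = m then 1 else 0)) /
        Real.sqrt (y 0 ^ 2 + y 1 ^ 2 + y 2 ^ 2 + 2 * t * y i + t ^ 2) ^ 3)) =ᶠ[𝓝 0]
      (fun t : ℝ => pd m (ph b) (y + t • (Pi.single i 1 : R3))) := by
    have hc : ContinuousAt (fun t : ℝ => nr (y + t • (Pi.single i 1 : R3))) 0 :=
      (nr_cont.comp (by fun_prop)).continuousAt
    have h0 : b < nr (y + (0 : ℝ) • (Pi.single i 1 : R3)) := by simpa using hy
    filter_upwards [hc.eventually (lt_mem_nhds h0)] with t ht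
    rw [(h3 b hb).2.2.2 m _ ht.le]
    have e1 : (y + t • (Pi.single i 1 : R3)) m = y m + t * (if i = m then 1 else 0) := by
      by_cases h : i = m
      · subst h
        simp
      · rw [Pi.add_apply, Pi.smul_apply, Pi.single_eq_of_ne (Ne.symm h)]
        simp [h]
    have e2 : nr (y + t • (Pi.single i 1 : R3)) =
        Real.sqrt (y 0 ^ 2 + y 1 ^ 2 + y 2 ^ 2 + 2 * t * y i + t ^ 2) := by
      unfold nr
      congr 1
      fin_cases i <;> simp <;> ring
    rw [e1, e2]
  have h2 := h1.congr_of_eventuallyEq hev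
  have hr : 0 < nr y := hb.trans hy
  have hS : nr y = Real.sqrt (y 0 ^ 2 + y 1 ^ 2 + y 2 ^ 2) := rfl
  have hS0 : y 0 ^ 2 + y 1 ^ 2 + y 2 ^ 2 ≠ 0 := by
    intro h
    rw [hS, h, Real.sqrt_zero] at hr
    exact lt_irrefl _ hr
  have q1 : HasDerivAt (fun t : ℝ => y 0 ^ 2 + y 1 ^ 2 + y 2 ^ 2 + 2 * t * y i + t ^ 2)
      (2 * y i) 0 := by
    have := (((hasDerivAt_id (0 : ℝ)).const_mul 2).mul_const (y i)).const_add
      (y 0 ^ 2 + y 1 ^ 2 + y 2 ^ 2)
    have h4 := this.add ((hasDerivAt_id (0 : ℝ)).pow 2)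
    refine (h4.congr_deriv ?_).congr_of_eventuallyEq ?_
    · simp
    · exact Eventually.of_forall fun t => by simp
  have q2 := q1.sqrt (by simpa using hS0)
  have q3 := q2.pow 3
  have q4 : HasDerivAt (fun t : ℝ => y m + t * (if i = m then (1 : ℝ) else 0))
      (if i = m then 1 else 0) 0 := by
    have := ((hasDerivAt_id (0 : ℝ)).mul_const (if i = m then (1 : ℝ) else 0)).const_add (y m)
    simpa using this
  have hne : Real.sqrt (y 0 ^ 2 + y 1 ^ 2 + y 2 ^ 2 + 2 * 0 * y i + 0 ^ 2) ^ 3 ≠ 0 := by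
    have : y 0 ^ 2 + y 1 ^ 2 + y 2 ^ 2 + 2 * 0 * y i + 0 ^ 2 = y 0 ^ 2 + y 1 ^ 2 + y 2 ^ 2 := by
      ring
    rw [this, ← hS]
    positivity
  have q5 := (q4.div q3 hne).neg
  have h5 := h2.unique q5
  rw [h5]
  have hz : y 0 ^ 2 + y 1 ^ 2 + y 2 ^ 2 + 2 * 0 * y i + 0 ^ 2 = y 0 ^ 2 + y 1 ^ 2 + y 2 ^ 2 := by
    ring
  simp only [Pi.pow_apply, hz, ← hS]
  simp only [zero_mul, add_zero]
  generalize (if i = m then (1 : ℝ) else 0) = δ
  have hr0 : nr y ≠ 0 := hr.ne'
  field_simp
  ring

/-- linear combinations of translates -/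
noncomputable def lc {ι : Type} [Fintype ι] (f : ι → R3 → ℝ) (c : ι → ℝ) (P : ι → R3)
    (w : R3) : ℝ := ∑ k, c k * f k (w - P k)

theorem lc_cd {ι : Type} [Fintype ι] (f : ι → R3 → ℝ) (c : ι → ℝ) (P : ι → R3)
    (hf : ∀ k, ContDiff ℝ (⊤ : ℕ∞) (f k)) : ContDiff ℝ (⊤ : ℕ∞) (lc f c P) := by
  unfold lc
  apply ContDiff.sum
  intro k _
  exact contDiff_const.mul ((hf k).comp (contDiff_id.sub contDiff_const))

theorem lc_pd {ι : Type} [Fintype ι] (f : ι → R3 → ℝ) (c : ι → ℝ) (P : ι → R3)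
    (hf : ∀ k, ContDiff ℝ (⊤ : ℕ∞) (f k)) (i : Fin 3) :
    pd i (lc f c P) = lc (fun k => pd i (f k)) c P := by
  funext y
  unfold pd lc
  have hd : ∀ k, HasFDerivAt (fun y => c k * f k (y - P k)) (c k • fderiv ℝ (f k) (y - P k)) y := by
    intro k
    have h1 : DifferentiableAt ℝ (f k) (y - P k) := ((hf k).differentiable (by simp)) _
    have h2 := h1.hasFDerivAt.comp y ((hasFDerivAt_id y).sub_const (P k))
    rw [ContinuousLinearMap.comp_id] at h2
    exact h2.const_mul (c k)
  have hs : HasFDerivAt (fun y => ∑ k, c k * f k (y - P k))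
      (∑ k, c k • fderiv ℝ (f k) (y - P k)) y :=
    HasFDerivAt.fun_sum (fun k _ => hd k)
  rw [hs.fderiv, sum_apply]
  rfl

theorem lc_lap {ι : Type} [Fintype ι] (f : ι → R3 → ℝ) (c : ι → ℝ) (P : ι → R3)
    (hf : ∀ k, ContDiff ℝ (⊤ : ℕ∞) (f k)) (y : R3) :
    lap (lc f c P) y = ∑ k, c k * lap (f k) (y - P k) := by
  unfold lap
  have h : ∀ i, pd i (pd i (lc f c P)) y = ∑ k, c k * pd i (pd i (f k)) (y - P k) := by
    intro i
    rw [lc_pd f c P hf i, lc_pd _ c P (fun k => eid_cd i (hf k)) i]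
    rfl
  rw [Finset.sum_congr rfl (fun i _ => h i), Finset.sum_comm]
  apply Finset.sum_congr rfl
  intro k _
  rw [Finset.mul_sum]

/-- polarization bounds the field energy -/
theorem dip_gen (Φ : R3 → ℝ) (P : Fin 3 → R3 → ℝ) (hΦ : ContDiff ℝ (⊤ : ℕ∞) Φ)
    (hP : ∀ i, ContDiff ℝ (⊤ : ℕ∞) (P i)) (hPc : ∀ i, HasCompactSupport (P i))
    (hlap : ∀ w, lap Φ w = -∑ i, pd i (P i) w) (A B : ℝ) (hA0 : 0 ≤ A) (_hB0 : 0 ≤ B)
    (hA : ∀ w, |Φ w| ≤ A / (1 + ‖w‖) ^ 2) (hB : ∀ i w, |P i w + pd i Φ w| ≤ B / (1 + ‖w‖)) :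
    0 ≤ ∫ w, ∑ i, P i w * (P i w + pd i Φ w) := by
  obtain ⟨χ, C, hC0, hχ⟩ := eid_cut
  have hF : ∀ i, ContDiff ℝ (⊤ : ℕ∞) (fun w => P i w + pd i Φ w) :=
    fun i => (hP i).add (eid_cd i hΦ)
  have hdiv : ∀ w, ∑ i, pd i (fun w => P i w + pd i Φ w) w = 0 := by
    intro w
    have h : ∀ i, pd i (fun w => P i w + pd i Φ w) w = pd i (P i) w + pd i (pd i Φ) w := by
      intro i
      unfold pd
      have h1 := (((hP i).differentiable (by simp)) w).hasFDerivAt
      have h2 := (((eid_cd i hΦ).differentiable (by simp)) w).hasFDerivAt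
      have h3 := (h1.add h2).fderiv
      change (fderiv ℝ (P i + pd i Φ) w) _ = _
      rw [h3]
      rfl
    rw [Finset.sum_congr rfl fun i _ => h i, Finset.sum_add_distrib]
    have h4 := hlap w
    unfold lap at h4
    rw [h4]
    ring
  -- the inequality with cut off
  have hN : ∀ N, 0 ≤ ∫ w, (χ N w ^ 2 * (∑ i, P i w * (P i w + pd i Φ w)) -
      Φ w * ∑ i, 2 * (χ N w * pd i (χ N) w) * (P i w + pd i Φ w)) := by
    intro N
    obtain ⟨c1, c2, -, -, -, -⟩ := hχ N
    have t1 : ContDiff ℝ (⊤ : ℕ∞) (fun w => χ N w * χ N w) := c1.mul c1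
    have t2 : HasCompactSupport (fun w => χ N w * χ N w) := c2.mul_right
    have s1 : ContDiff ℝ (⊤ : ℕ∞) (fun w => χ N w * χ N w * Φ w) := t1.mul hΦ
    have s2 : HasCompactSupport (fun w => χ N w * χ N w * Φ w) := t2.mul_right
    have e0 : ∀ i w, pd i (fun w => χ N w * χ N w * Φ w) w =
        2 * (χ N w * pd i (χ N) w) * Φ w + χ N w * χ N w * pd i Φ w := by
      intro i w
      rw [eid_pd_mul i t1 hΦ, eid_pd_mul i c1 c1]
      ring
    have e1 : ∀ i, ∫ w, (2 * (χ N w * pd i (χ N) w) * Φ w + χ N w * χ N w * pd i Φ w) *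
        (P i w + pd i Φ w) =
        -∫ w, χ N w * χ N w * Φ w * pd i (fun w => P i w + pd i Φ w) w := by
      intro i
      have h := eid_ibp i s1 s2 (hF i)
      simp only [e0] at h
      exact h
    have j1 : ∀ i, Integrable (fun w => (2 * (χ N w * pd i (χ N) w) * Φ w +
        χ N w * χ N w * pd i Φ w) * (P i w + pd i Φ w)) := by
      intro i
      have h : Integrable fun w => pd i (fun w => χ N w * χ N w * Φ w) w * (P i w + pd i Φ w) :=
        ((eid_cd i s1).continuous.mul (hF i).continuous).integrable_of_hasCompactSupport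
          (eid_cs i s2).mul_right
      simp only [e0] at h
      exact h
    have j2 : ∀ i, Integrable fun w => χ N w * χ N w * Φ w *
        pd i (fun w => P i w + pd i Φ w) w := by
      intro i
      exact (s1.continuous.mul (eid_cd i (hF i)).continuous).integrable_of_hasCompactSupport
        s2.mul_right
    have e2 : ∫ w, ∑ i, (2 * (χ N w * pd i (χ N) w) * Φ w + χ N w * χ N w * pd i Φ w) *
        (P i w + pd i Φ w) = 0 := by
      rw [integral_finsetSum _ fun i _ => j1 i, Finset.sum_congr rfl fun i _ => e1 i,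
        Finset.sum_neg_distrib, ← integral_finsetSum _ fun i _ => j2 i]
      have : ∀ w, ∑ i, χ N w * χ N w * Φ w * pd i (fun w => P i w + pd i Φ w) w = 0 := by
        intro w
        rw [← Finset.mul_sum, hdiv, mul_zero]
      simp only [this, integral_zero, neg_zero]
    have j3 : Integrable fun w => ∑ i, (2 * (χ N w * pd i (χ N) w) * Φ w +
        χ N w * χ N w * pd i Φ w) * (P i w + pd i Φ w) := integrable_finsetSum _ fun i _ => j1 i
    have j4 : Integrable fun w => χ N w * χ N w * ∑ i, (P i w + pd i Φ w) ^ 2 := by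
      refine (t1.continuous.mul (continuous_finsetSum _ fun i _ =>
        (hF i).continuous.pow 2)).integrable_of_hasCompactSupport t2.mul_right
    have e3 : ∫ w, (χ N w ^ 2 * (∑ i, P i w * (P i w + pd i Φ w)) -
        Φ w * ∑ i, 2 * (χ N w * pd i (χ N) w) * (P i w + pd i Φ w)) =
        (∫ w, χ N w * χ N w * ∑ i, (P i w + pd i Φ w) ^ 2) -
        ∫ w, ∑ i, (2 * (χ N w * pd i (χ N) w) * Φ w + χ N w * χ N w * pd i Φ w) *
          (P i w + pd i Φ w) := by
      rw [← integral_sub j4 j3]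
      congr 1
      funext w
      simp only [Fin.sum_univ_three]
      ring
    rw [e3, e2, sub_zero]
    refine integral_nonneg fun w => ?_
    exact mul_nonneg (mul_self_nonneg _) (Finset.sum_nonneg fun i _ => sq_nonneg _)
  -- limit
  have hsumc : Continuous fun w => ∑ i, P i w * (P i w + pd i Φ w) :=
    continuous_finsetSum _ fun i _ => (hP i).continuous.mul (hF i).continuous
  have hsumi : Integrable fun w => ∑ i, P i w * (P i w + pd i Φ w) := by
    refine integrable_finsetSum _ fun i _ => ?_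
    exact ((hP i).continuous.mul (hF i).continuous).integrable_of_hasCompactSupport
      (hPc i).mul_right
  have hL : Tendsto (fun N => ∫ w, (χ N w ^ 2 * (∑ i, P i w * (P i w + pd i Φ w)) -
      Φ w * ∑ i, 2 * (χ N w * pd i (χ N) w) * (P i w + pd i Φ w))) atTop
      (𝓝 (∫ w, ∑ i, P i w * (P i w + pd i Φ w))) := by
    refine tendsto_integral_of_dominated_convergence
      (fun w => |∑ i, P i w * (P i w + pd i Φ w)| + 6 * A * C * B / (1 + ‖w‖) ^ 4)
      (fun N => ?_) (hsumi.abs.add (eid_int4 _)) (fun N => ?_) (Eventually.of_forall fun w => ?_)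
    · obtain ⟨c1, -, -, -, -, -⟩ := hχ N
      refine Continuous.aestronglyMeasurable ?_
      refine ((c1.continuous.pow 2).mul hsumc).sub (hΦ.continuous.mul
        (continuous_finsetSum _ fun i _ => (continuous_const.mul
          (c1.continuous.mul (eid_cd i c1).continuous)).mul (hF i).continuous))
    · obtain ⟨-, -, c3, c4, -, -⟩ := hχ N
      refine Eventually.of_forall fun w => ?_
      rw [Real.norm_eq_abs]
      have hw : 0 < 1 + ‖w‖ := by positivity
      refine (abs_sub _ _).trans (add_le_add ?_ ?_)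
      · rw [abs_mul, abs_pow]
        have h1 : |χ N w| ^ 2 ≤ 1 := pow_le_one₀ (abs_nonneg _) (c3 w)
        calc |χ N w| ^ 2 * |∑ i, P i w * (P i w + pd i Φ w)|
            ≤ 1 * |∑ i, P i w * (P i w + pd i Φ w)| :=
              mul_le_mul_of_nonneg_right h1 (abs_nonneg _)
          _ = _ := one_mul _
      · rw [abs_mul]
        have h2 : |∑ i, 2 * (χ N w * pd i (χ N) w) * (P i w + pd i Φ w)| ≤
            6 * C * B / (1 + ‖w‖) ^ 2 := by
          refine (Finset.abs_sum_le_sum_abs _ _).trans ?_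
          have h3 : ∀ i ∈ (Finset.univ : Finset (Fin 3)),
              |2 * (χ N w * pd i (χ N) w) * (P i w + pd i Φ w)| ≤
              2 * C * B / (1 + ‖w‖) ^ 2 := by
            intro i _
            rw [abs_mul, abs_mul, abs_mul, abs_two]
            calc 2 * (|χ N w| * |pd i (χ N) w|) * |P i w + pd i Φ w|
                ≤ 2 * (1 * (C / (1 + ‖w‖))) * (B / (1 + ‖w‖)) := by
                  refine mul_le_mul (mul_le_mul_of_nonneg_left (mul_le_mul (c3 w) (c4 i w)
                    (abs_nonneg _) zero_le_one) (by norm_num)) (hB i w) (abs_nonneg _) ?_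
                  positivity
              _ = 2 * C * B / (1 + ‖w‖) ^ 2 := by field_simp
          refine (Finset.sum_le_sum h3).trans ?_
          rw [Finset.sum_const, Finset.card_univ, Fintype.card_fin, nsmul_eq_mul]
          refine le_of_eq ?_
          push_cast
          ring
        calc |Φ w| * |∑ i, 2 * (χ N w * pd i (χ N) w) * (P i w + pd i Φ w)|
            ≤ A / (1 + ‖w‖) ^ 2 * (6 * C * B / (1 + ‖w‖) ^ 2) :=
              mul_le_mul (hA w) h2 (abs_nonneg _) (by positivity)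
          _ = 6 * A * C * B / (1 + ‖w‖) ^ 4 := by
            field_simp
    · have t1 : ∀ i, Tendsto (fun N => pd i (χ N) w) atTop (𝓝 0) := by
        intro i
        have t0 : Tendsto (fun N : ℕ => C / ((N : ℝ) + 1)) atTop (𝓝 0) := by
          have := tendsto_one_div_add_atTop_nhds_zero_nat (𝕜 := ℝ).const_mul C
          simpa [div_eq_mul_inv] using this
        exact squeeze_zero_norm (fun N => (hχ N).2.2.2.2.1 i w) t0
      have t2 : Tendsto (fun N => χ N w) atTop (𝓝 1) := by
        refine tendsto_const_nhds.congr' ?_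
        obtain ⟨N0, hN0⟩ := exists_nat_ge ‖w‖
        filter_upwards [eventually_ge_atTop N0] with N hNN
        refine ((hχ N).2.2.2.2.2 w ?_).symm
        have : (N0 : ℝ) ≤ N := by exact_mod_cast hNN
        linarith
      have t3 : Tendsto (fun N => ∑ i, 2 * (χ N w * pd i (χ N) w) * (P i w + pd i Φ w)) atTop
          (𝓝 (∑ i : Fin 3, 2 * (1 * 0) * (P i w + pd i Φ w))) := by
        refine tendsto_finsetSum _ fun i _ => ?_
        exact ((t2.mul (t1 i)).const_mul 2).mul_const _
      have t4 := ((t2.pow 2).mul_const (∑ i, P i w * (P i w + pd i Φ w))).sub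
        (t3.const_mul (Φ w))
      have t5 : (1 : ℝ) ^ 2 * (∑ i, P i w * (P i w + pd i Φ w)) -
          Φ w * (∑ i : Fin 3, 2 * (1 * 0) * (P i w + pd i Φ w)) =
          ∑ i, P i w * (P i w + pd i Φ w) := by
        simp
      rw [t5] at t4
      exact t4
  exact ge_of_tendsto hL (Eventually.of_forall hN)

theorem dip_bd (h3 : ST_PHB) (b : ℝ) (hb : 0 < b) (hs : ContDiff ℝ (⊤ : ℕ∞) (ph b)) :
    ∃ B : ℝ, 0 ≤ B ∧ ∀ i m y, |pd i (pd m (ph b)) y| ≤ B / (1 + ‖y‖) := by
  have h : ∀ i m : Fin 3, ∃ C : ℝ, ∀ y ∈ Metric.closedBall (0 : R3) b,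
      ‖pd i (pd m (ph b)) y‖ ≤ C := by
    intro i m
    exact (isCompact_closedBall (0 : R3) b).exists_bound_of_continuousOn
      (eid_cd i (eid_cd m hs)).continuous.continuousOn
  choose C hC using h
  set B0 : ℝ := ∑ i, ∑ m, |C i m| with hB0
  have hB0p : 0 ≤ B0 := Finset.sum_nonneg fun i _ => Finset.sum_nonneg fun m _ => abs_nonneg _
  have hCB : ∀ i m, C i m ≤ B0 := by
    intro i m
    calc C i m ≤ |C i m| := le_abs_self _
      _ ≤ ∑ m, |C i m| := Finset.single_le_sum (f := fun m => |C i m|)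
          (fun _ _ => abs_nonneg _) (Finset.mem_univ m)
      _ ≤ B0 := Finset.single_le_sum (f := fun i => ∑ m, |C i m|)
          (fun _ _ => Finset.sum_nonneg fun m _ => abs_nonneg _) (Finset.mem_univ i)
  refine ⟨B0 * (1 + b) + 4 / b ^ 2 * (1 / b + 1), by positivity, fun i m y => ?_⟩
  have hw : 0 < 1 + ‖y‖ := by positivity
  rw [le_div_iff₀ hw]
  by_cases hy : ‖y‖ ≤ b
  · have h1 : |pd i (pd m (ph b)) y| ≤ B0 :=
      (hC i m y (by simpa using hy)).trans (hCB i m)
    have h2 : |pd i (pd m (ph b)) y| * (1 + ‖y‖) ≤ B0 * (1 + b) :=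
      mul_le_mul h1 (by linarith) hw.le hB0p
    have h3 : 0 ≤ 4 / b ^ 2 * (1 / b + 1) := by positivity
    linarith
  · rw [not_le] at hy
    have hn : ‖y‖ ≤ nr y := eid_norm_le y
    have hr : b < nr y := hy.trans_le hn
    have hr0 : 0 < nr y := hb.trans hr
    have hyi : ∀ i, |y i| ≤ nr y := fun i => (norm_le_pi_norm y i).trans hn
    rw [dip_hess h3 b hb hs i m y hr]
    have k1 : |3 * y i * y m / nr y ^ 5| ≤ 3 / nr y ^ 3 := by
      rw [abs_div, abs_mul, abs_mul, abs_of_pos (by norm_num : (0 : ℝ) < 3),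
        abs_of_pos (by positivity : 0 < nr y ^ 5)]
      rw [div_le_div_iff₀ (by positivity) (by positivity)]
      have := mul_le_mul (hyi i) (hyi m) (abs_nonneg _) hr0.le
      nlinarith [pow_pos hr0 3]
    have k2 : |(if i = m then (1 : ℝ) else 0) / nr y ^ 3| ≤ 1 / nr y ^ 3 := by
      rw [abs_div, abs_of_pos (by positivity : 0 < nr y ^ 3)]
      refine div_le_div_of_nonneg_right ?_ (by positivity)
      split_ifs <;> simp
    have k3 : |3 * y i * y m / nr y ^ 5 - (if i = m then (1 : ℝ) else 0) / nr y ^ 3| ≤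
        4 / nr y ^ 3 := by
      refine (abs_sub _ _).trans ?_
      have : 4 / nr y ^ 3 = 3 / nr y ^ 3 + 1 / nr y ^ 3 := by ring
      linarith
    have k4 : 4 / nr y ^ 3 ≤ 4 / b ^ 2 * (1 / ‖y‖) := by
      have hy0 : 0 < ‖y‖ := hb.trans hy
      rw [div_mul_div_comm, div_le_div_iff₀ (by positivity) (by positivity)]
      have h5 : b ^ 2 * ‖y‖ ≤ nr y ^ 2 * nr y :=
        mul_le_mul (pow_le_pow_left₀ hb.le hr.le 2) hn (norm_nonneg _) (by positivity)
      nlinarith
    have k5 : 1 / ‖y‖ * (1 + ‖y‖) ≤ 1 / b + 1 := by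
      have hy0 : 0 < ‖y‖ := hb.trans hy
      have : 1 / ‖y‖ * (1 + ‖y‖) = 1 / ‖y‖ + 1 := by field_simp
      rw [this]
      have := one_div_le_one_div_of_le hb hy.le
      linarith
    have k6 : |3 * y i * y m / nr y ^ 5 - (if i = m then (1 : ℝ) else 0) / nr y ^ 3| *
        (1 + ‖y‖) ≤ 4 / b ^ 2 * (1 / b + 1) := by
      calc _ ≤ 4 / b ^ 2 * (1 / ‖y‖) * (1 + ‖y‖) :=
            mul_le_mul_of_nonneg_right (k3.trans k4) hw.le
        _ = 4 / b ^ 2 * (1 / ‖y‖ * (1 + ‖y‖)) := by ring
        _ ≤ _ := mul_le_mul_of_nonneg_left k5 (by positivity)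
    have h3 : 0 ≤ B0 * (1 + b) := by positivity
    linarith

theorem dip_lz (b : ℝ) (i : Fin 3) (g : R3 → ℝ) (hg : ContDiff ℝ (⊤ : ℕ∞) g)
    (h0 : ∀ y, b ≤ nr y → lap g y = 0) (y : R3) (hy : b ≤ nr y) : lap (pd i g) y = 0 := by
  rw [lap_pd g hg i y]
  refine pd_zero b i (lap g) ?_ h0 y hy
  unfold lap
  exact ContDiff.sum fun j _ => eid_cd j (eid_cd j hg)

theorem dip_Tq_symm (ξ v w : R3) : Tq (-ξ) w v = Tq ξ v w := by
  have hn : nr (-ξ) = nr ξ := by
    unfold nr
    congr 1
    simp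
  unfold Tq
  rw [hn]
  simp only [Fin.sum_univ_three, Pi.neg_apply]
  ring

/-- the field of the pair `(k, l)` -/
noncomputable def hp {n : ℕ} (b : ℝ) (x : Cf n) (a : Fin n → R3) (k l : Fin n) : R3 → ℝ :=
  lc (ι := Fin 3 ⊕ Fin 3 × Fin 3)
    (Sum.elim (fun _ => et b) (fun β => pd β.1 (pd β.2 (ph b))))
    (Sum.elim (fun i => a k i * a l i) (fun β => a k β.1 * a l β.2)) (fun _ => x l)

theorem hp_eq {n : ℕ} (b : ℝ) (x : Cf n) (a : Fin n → R3) (k l : Fin n) (w : R3) :
    hp b x a k l w = (∑ i, a k i * a l i * et b (w - x l)) +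
      ∑ i, ∑ m, a k i * a l m * pd i (pd m (ph b)) (w - x l) := by
  unfold hp lc
  rw [Fintype.sum_sum_type, Fintype.sum_prod_type]
  rfl

theorem hp_cd {n : ℕ} (b : ℝ) (x : Cf n) (a : Fin n → R3) (k l : Fin n)
    (h1 : ContDiff ℝ (⊤ : ℕ∞) (ph b)) (h2 : ContDiff ℝ (⊤ : ℕ∞) (et b)) :
    ContDiff ℝ (⊤ : ℕ∞) (hp b x a k l) := by
  refine lc_cd _ _ _ ?_
  rintro (i | β)
  · exact h2
  · exact eid_cd _ (eid_cd _ h1)

theorem hp_far {n : ℕ} (h1 : ST_MVP) (h3 : ST_PHB) (h4 : ST_PHC) (b : ℝ) (hb : 0 < b)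
    (hs : ContDiff ℝ (⊤ : ℕ∞) (ph b)) (x : Cf n) (a : Fin n → R3) (k l : Fin n)
    (hkl : 2 * b < nr (x k - x l)) :
    ∫ w, hp b x a k l w * et b (w - x k) = kap * Tq (x k - x l) (a k) (a l) := by
  obtain ⟨ets, et0, etz, -, -, -⟩ := h4.2.2.2 b hb
  have hh := hp_cd b x a k l hs ets
  have hfar : ∀ w, nr (w - x k) ≤ b → b ≤ nr (w - x l) := by
    intro w hw
    have := nr_tri (x k) w (x l)
    rw [nr_comm (x k) w] at this
    linarith
  have hl : lap (ph b) = fun y => -et b y := by
    funext y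
    exact (h3 b hb).1 y
  have hl0 : ∀ y, b ≤ nr y → lap (ph b) y = 0 := by
    intro y hy
    rw [hl]
    simp only [etz y hy, neg_zero]
  have key := (h1 (hp b x a k l) (x k) b hh hb).1 ?_
  · rw [key, hp_eq]
    have hr : b < nr (x k - x l) := by linarith
    congr 1
    rw [etz _ hr.le]
    simp only [dip_hess h3 b hb hs _ _ _ hr]
    unfold Tq
    simp only [Fin.sum_univ_three]
    simp
    ring
  · intro w hw
    have hy := hfar w hw
    unfold hp
    rw [lc_lap]
    · refine Finset.sum_eq_zero fun β _ => ?_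
      rcases β with i | β
      · have e : lap (et b) (w - x l) = 0 := by
          unfold lap
          refine Finset.sum_eq_zero fun j _ => ?_
          exact pd_zero b j _ (eid_cd j ets) (fun y hy => pd_zero b j _ ets etz y hy) _ hy
        simp only [Sum.elim_inl, e, mul_zero]
      · have e : lap (pd β.1 (pd β.2 (ph b))) (w - x l) = 0 :=
          dip_lz b β.1 _ (eid_cd _ hs) (fun y hy => dip_lz b β.2 _ hs hl0 y hy) _ hy
        simp only [Sum.elim_inr, e, mul_zero]
    · rintro (i | β)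
      · exact ets
      · exact eid_cd _ (eid_cd _ hs)

theorem hp_bd {n : ℕ} (b K E B : ℝ) (x : Cf n) (a : Fin n → R3)
    (hK : ∀ k m, |a k m| ≤ K) (hE : ∀ y, |et b y| ≤ E)
    (hB : ∀ i m y, |pd i (pd m (ph b)) y| ≤ B) (k l : Fin n) (w : R3) :
    |hp b x a k l w| ≤ (3 * E + 9 * B) * K ^ 2 := by
  have hK0 : 0 ≤ K := (abs_nonneg _).trans (hK k 0)
  rw [hp_eq]
  refine (abs_add_le _ _).trans ?_
  have e1 : |∑ i, a k i * a l i * et b (w - x l)| ≤ 3 * (K * K * E) := by
    refine (Finset.abs_sum_le_sum_abs _ _).trans ?_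
    have : ∀ i ∈ (Finset.univ : Finset (Fin 3)), |a k i * a l i * et b (w - x l)| ≤
        K * K * E := by
      intro i _
      rw [abs_mul, abs_mul]
      exact mul_le_mul (mul_le_mul (hK k i) (hK l i) (abs_nonneg _) hK0) (hE _) (abs_nonneg _)
        (by positivity)
    refine (Finset.sum_le_sum this).trans ?_
    rw [Finset.sum_const, Finset.card_univ, Fintype.card_fin, nsmul_eq_mul]
    refine le_of_eq ?_
    norm_num
  have e2 : |∑ i, ∑ m, a k i * a l m * pd i (pd m (ph b)) (w - x l)| ≤ 9 * (K * K * B) := by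
    refine (Finset.abs_sum_le_sum_abs _ _).trans ?_
    have : ∀ i ∈ (Finset.univ : Finset (Fin 3)),
        |∑ m, a k i * a l m * pd i (pd m (ph b)) (w - x l)| ≤ 3 * (K * K * B) := by
      intro i _
      refine (Finset.abs_sum_le_sum_abs _ _).trans ?_
      have h5 : ∀ m ∈ (Finset.univ : Finset (Fin 3)),
          |a k i * a l m * pd i (pd m (ph b)) (w - x l)| ≤ K * K * B := by
        intro m _
        rw [abs_mul, abs_mul]
        exact mul_le_mul (mul_le_mul (hK k i) (hK l m) (abs_nonneg _) hK0) (hB _ _ _)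
          (abs_nonneg _) (by positivity)
      refine (Finset.sum_le_sum h5).trans ?_
      rw [Finset.sum_const, Finset.card_univ, Fintype.card_fin, nsmul_eq_mul]
      refine le_of_eq ?_
      norm_num
    refine (Finset.sum_le_sum this).trans ?_
    rw [Finset.sum_const, Finset.card_univ, Fintype.card_fin, nsmul_eq_mul]
    refine le_of_eq ?_
    norm_num
    ring
  have e3 : (3 * E + 9 * B) * K ^ 2 = 3 * (K * K * E) + 9 * (K * K * B) := by ring
  rw [e3]
  exact add_le_add e1 e2

/-- positivity: the sum over all pairs -/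
theorem hp_pos {n : ℕ} (h2 : ST_PHA) (h3 : ST_PHB) (h4 : ST_PHC) (b : ℝ) (hb : 0 < b)
    (x : Cf n) (a : Fin n → R3) :
    0 ≤ ∑ k, ∑ l, ∫ w, hp b x a k l w * et b (w - x k) := by
  have hs := (h2 b hb).1
  obtain ⟨ets, et0, etz, -, -, -⟩ := h4.2.2.2 b hb
  obtain ⟨hlap, hd4, hdr, -⟩ := h3 b hb
  obtain ⟨B, hB0, hB⟩ := dip_bd h3 b hb hs
  have etcs : ∀ c : R3, HasCompactSupport fun w => et b (w - c) := by
    intro c
    refine HasCompactSupport.intro (isCompact_closedBall c b) fun w hw => ?_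
    rw [Metric.mem_closedBall, not_le, dist_eq_norm] at hw
    exact etz _ (hw.le.trans (eid_norm_le _))
  have etc : ∀ c : R3, Continuous fun w => et b (w - c) := fun c =>
    ets.continuous.comp (continuous_id.sub continuous_const)
  set Φ : R3 → ℝ := lc (fun α : Fin n × Fin 3 => pd α.2 (ph b)) (fun α => a α.1 α.2)
    (fun α => x α.1) with hΦ
  set P : Fin 3 → R3 → ℝ := fun i => lc (fun _ : Fin n => et b) (fun k => a k i) x with hP
  have cΦ : ContDiff ℝ (⊤ : ℕ∞) Φ := lc_cd _ _ _ fun α => eid_cd _ hs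
  have cP : ∀ i, ContDiff ℝ (⊤ : ℕ∞) (P i) := fun i => lc_cd _ _ _ fun _ => ets
  have sP : ∀ i, HasCompactSupport (P i) := by
    intro i
    have h : ∀ s : Finset (Fin n), HasCompactSupport (fun w => ∑ k ∈ s, a k i * et b (w - x k)) := by
      intro s
      induction s using Finset.induction_on with
      | empty =>
        simp only [Finset.sum_empty]
        exact HasCompactSupport.zero
      | insert k s hk ih =>
        simp only [Finset.sum_insert hk]
        exact (etcs (x k)).mul_left.add ih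
    exact h Finset.univ
  have dΦ : ∀ i w, pd i Φ w = ∑ l, ∑ m, a l m * pd i (pd m (ph b)) (w - x l) := by
    intro i w
    rw [hΦ, lc_pd _ _ _ (fun α => eid_cd _ hs)]
    unfold lc
    rw [Fintype.sum_prod_type]
  have hl : lap (ph b) = fun y => -et b y := by
    funext y
    exact hlap y
  have hlp : ∀ w, lap Φ w = -∑ i, pd i (P i) w := by
    intro w
    rw [hΦ, lc_lap _ _ _ (fun α => eid_cd _ hs), Fintype.sum_prod_type, Finset.sum_comm,
      ← Finset.sum_neg_distrib]
    refine Finset.sum_congr rfl fun i _ => ?_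
    rw [hP]
    simp only []
    rw [lc_pd _ _ _ (fun _ => ets)]
    unfold lc
    rw [← Finset.sum_neg_distrib]
    refine Finset.sum_congr rfl fun k _ => ?_
    rw [lap_pd (ph b) hs i, hl]
    have : pd i (fun y => -et b y) (w - x k) = -pd i (et b) (w - x k) := by
      unfold pd
      rw [show (fun y => -et b y) = -(et b) from rfl, fderiv_neg]
      rfl
    rw [this]
    ring
  -- decay
  have dec1 : ∀ (i : Fin 3) (c w : R3), |pd i (ph b) (w - c)| ≤
      (2 * (4 / b ^ 2) + 2) * (1 + ‖c‖) ^ 2 / (1 + ‖w‖) ^ 2 := by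
    intro i c w
    refine eid_b2 _ _ w c (hd4 i _) ?_
    by_cases h : nr (w - c) = 0
    · rw [eid_nr0 h, norm_zero]
      norm_num
    · have hp : 0 < nr (w - c) := lt_of_le_of_ne (Real.sqrt_nonneg _) (Ne.symm h)
      calc ‖w - c‖ ^ 2 * |pd i (ph b) (w - c)| ≤ nr (w - c) ^ 2 * (1 / nr (w - c) ^ 2) :=
            mul_le_mul (pow_le_pow_left₀ (norm_nonneg _) (eid_norm_le _) 2) (hdr i _ h)
              (abs_nonneg _) (by positivity)
        _ = 1 := by field_simp
  have dec2 : ∀ (i m : Fin 3) (c w : R3), |pd i (pd m (ph b)) (w - c)| ≤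
      B * (1 + ‖c‖) / (1 + ‖w‖) := by
    intro i m c w
    refine (hB i m _).trans ?_
    rw [div_le_div_iff₀ (by positivity) (by positivity)]
    have := eid_shift w c
    calc B * (1 + ‖w‖) ≤ B * ((1 + ‖c‖) * (1 + ‖w - c‖)) := mul_le_mul_of_nonneg_left this hB0
      _ = _ := by ring
  have hA : ∀ w, |Φ w| ≤ (∑ α : Fin n × Fin 3, |a α.1 α.2| *
      ((2 * (4 / b ^ 2) + 2) * (1 + ‖x α.1‖) ^ 2)) / (1 + ‖w‖) ^ 2 := by
    intro w
    rw [hΦ]
    unfold lc
    refine (Finset.abs_sum_le_sum_abs _ _).trans ?_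
    rw [Finset.sum_div]
    refine Finset.sum_le_sum fun α _ => ?_
    rw [abs_mul, mul_div_assoc]
    exact mul_le_mul_of_nonneg_left (dec1 _ _ _) (abs_nonneg _)
  have hPb : ∃ D : ℝ, 0 ≤ D ∧ ∀ i w, |P i w| ≤ D / (1 + ‖w‖) := by
    have h : ∀ i : Fin 3, ∃ D : ℝ, ∀ w, ‖(1 + ‖w‖) * P i w‖ ≤ D := by
      intro i
      exact ((sP i).mul_left (f := fun w : R3 => 1 + ‖w‖)).exists_bound_of_continuous
        ((continuous_const.add continuous_norm).mul (cP i).continuous)
    choose D hD using h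
    refine ⟨∑ i, |D i|, Finset.sum_nonneg fun i _ => abs_nonneg _, fun i w => ?_⟩
    have hw : 0 < 1 + ‖w‖ := by positivity
    rw [le_div_iff₀ hw]
    have h1 := hD i w
    rw [Real.norm_eq_abs, abs_mul, abs_of_pos hw] at h1
    have h2 : |D i| ≤ ∑ i, |D i| := Finset.single_le_sum (f := fun i => |D i|)
      (fun _ _ => abs_nonneg _) (Finset.mem_univ i)
    linarith [le_abs_self (D i)]
  obtain ⟨D, hD0, hD⟩ := hPb
  have hBB : ∀ i w, |P i w + pd i Φ w| ≤ (D + ∑ l, ∑ m, |a l m| * (B * (1 + ‖x l‖))) /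
      (1 + ‖w‖) := by
    intro i w
    refine (abs_add_le _ _).trans ?_
    rw [add_div]
    refine add_le_add (hD i w) ?_
    rw [dΦ i w]
    refine (Finset.abs_sum_le_sum_abs _ _).trans ?_
    rw [Finset.sum_div]
    refine Finset.sum_le_sum fun l _ => ?_
    refine (Finset.abs_sum_le_sum_abs _ _).trans ?_
    rw [Finset.sum_div]
    refine Finset.sum_le_sum fun m _ => ?_
    rw [abs_mul, mul_div_assoc]
    exact mul_le_mul_of_nonneg_left (dec2 _ _ _ _) (abs_nonneg _)
  have key := dip_gen Φ P cΦ cP sP hlp _ _ (Finset.sum_nonneg fun α _ => by positivity)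
    (add_nonneg hD0 (Finset.sum_nonneg fun l _ => Finset.sum_nonneg fun m _ => by positivity))
    hA hBB
  have hint : ∀ k l, Integrable fun w => hp b x a k l w * et b (w - x k) := by
    intro k l
    exact ((hp_cd b x a k l hs ets).continuous.mul
      (etc (x k))).integrable_of_hasCompactSupport (etcs (x k)).mul_left
  have hsum : ∀ w, ∑ i, P i w * (P i w + pd i Φ w) =
      ∑ k, ∑ l, hp b x a k l w * et b (w - x k) := by
    intro w
    have e1 : ∀ i, P i w * (P i w + pd i Φ w) = ∑ k, ∑ l, (a k i * et b (w - x k)) *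
        (a l i * et b (w - x l) + ∑ m, a l m * pd i (pd m (ph b)) (w - x l)) := by
      intro i
      rw [dΦ i w, hP]
      unfold lc
      rw [← Finset.sum_add_distrib, Finset.sum_mul_sum]
    rw [Finset.sum_congr rfl fun i _ => e1 i, Finset.sum_comm]
    refine Finset.sum_congr rfl fun k _ => ?_
    rw [Finset.sum_comm]
    refine Finset.sum_congr rfl fun l _ => ?_
    rw [hp_eq, add_mul, Finset.sum_mul, Finset.sum_mul, ← Finset.sum_add_distrib]
    refine Finset.sum_congr rfl fun i _ => ?_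
    rw [mul_add, Finset.sum_mul, Finset.mul_sum]
    congr 1
    · ring
    · refine Finset.sum_congr rfl fun m _ => ?_
      ring
  simp only [hsum] at key
  rw [integral_finsetSum _ fun k _ => integrable_finsetSum _ fun l _ => hint k l] at key
  refine key.trans (le_of_eq ?_)
  refine Finset.sum_congr rfl fun k _ => ?_
  exact integral_finsetSum _ fun l _ => hint k l

theorem DIP (h1 : ST_MVP) (h2 : ST_PHA) (h3 : ST_PHB) (h4 : ST_PHC) : ST_DIP := by
  intro d hd hd1
  have hb : 0 < d / 8 := by positivity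
  have hs := (h2 (d / 8) hb).1
  have hkap := h4.2.1
  obtain ⟨Ce, hCe, hCe2⟩ := h4.2.2.1
  obtain ⟨ets, et0, etz, -, -, -⟩ := h4.2.2.2 (d / 8) hb
  obtain ⟨B, hB0, hB⟩ := dip_bd h3 (d / 8) hb hs
  have hB' : ∀ i m y, |pd i (pd m (ph (d / 8))) y| ≤ B := by
    intro i m y
    refine (hB i m y).trans ?_
    refine div_le_self hB0 ?_
    linarith [norm_nonneg y]
  have hE : ∀ y, |et (d / 8) y| ≤ Ce / (d / 8) ^ 3 := by
    intro y
    rw [abs_of_nonneg (et0 y)]
    exact hCe2 _ y hb
  set CC : ℝ := 3 * (Ce / (d / 8) ^ 3) + 9 * B with hCC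
  have hCCp : 0 < CC := by positivity
  refine ⟨CC / 2, by positivity, ?_⟩
  intro n M X x a K hX hK ha
  have hpos := hp_pos h2 h3 h4 (d / 8) hb x a
  -- one pair
  have hone : ∀ k l, ∫ w, hp (d / 8) x a k l w * et (d / 8) (w - x k) ≤
      kap * (if d < nr (x k - x l) then Tq (x k - x l) (a k) (a l) else 0) +
      CC * K ^ 2 * kap * ∑ i, (if nr (x k - X i) < 3 / 2 * d then (1 : ℝ) else 0) *
        (if nr (x l - X i) < 3 / 2 * d then 1 else 0) := by
    intro k l
    have hsum0 : 0 ≤ ∑ i, (if nr (x k - X i) < 3 / 2 * d then (1 : ℝ) else 0) *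
        (if nr (x l - X i) < 3 / 2 * d then 1 else 0) := by
      refine Finset.sum_nonneg fun i _ => mul_nonneg ?_ ?_ <;> split_ifs <;> norm_num
    have hCK : 0 ≤ CC * K ^ 2 * kap := by positivity
    by_cases hkl : d < nr (x k - x l)
    · rw [if_pos hkl, hp_far h1 h3 h4 (d / 8) hb hs x a k l (by linarith)]
      have := mul_nonneg hCK hsum0
      linarith
    · rw [if_neg hkl, mul_zero, zero_add]
      rw [not_lt] at hkl
      by_cases hak : a k = 0
      · have : ∀ w, hp (d / 8) x a k l w * et (d / 8) (w - x k) = 0 := by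
          intro w
          rw [hp_eq, hak]
          simp
        simp only [this, integral_zero]
        exact mul_nonneg hCK hsum0
      by_cases hal : a l = 0
      · have : ∀ w, hp (d / 8) x a k l w * et (d / 8) (w - x k) = 0 := by
          intro w
          rw [hp_eq, hal]
          simp
        simp only [this, integral_zero]
        exact mul_nonneg hCK hsum0
      have g1 : ∃ i, nr (x k - X i) ≤ d / 2 := by
        by_contra h
        push Not at h
        exact hak (ha k h)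
      have g2 : ∃ j, nr (x l - X j) ≤ d / 2 := by
        by_contra h
        push Not at h
        exact hal (ha l h)
      obtain ⟨i, hi⟩ := g1
      obtain ⟨j, hj⟩ := g2
      have hij : i = j := by
        by_contra h
        have q1 := hX i j h
        have q2 := nr_tri (X i) (x k) (X j)
        have q3 := nr_tri (x k) (x l) (X j)
        rw [nr_comm (X i) (x k)] at q2
        linarith
      subst hij
      have hge : (1 : ℝ) ≤ ∑ i, (if nr (x k - X i) < 3 / 2 * d then (1 : ℝ) else 0) *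
          (if nr (x l - X i) < 3 / 2 * d then 1 else 0) := by
        have h5 := Finset.single_le_sum (f := fun i =>
          (if nr (x k - X i) < 3 / 2 * d then (1 : ℝ) else 0) *
          (if nr (x l - X i) < 3 / 2 * d then 1 else 0))
          (fun i _ => by
            refine mul_nonneg ?_ ?_ <;> split_ifs <;> norm_num) (Finset.mem_univ i)
        have h6 : (if nr (x k - X i) < 3 / 2 * d then (1 : ℝ) else 0) *
            (if nr (x l - X i) < 3 / 2 * d then 1 else 0) = 1 := by
          rw [if_pos (by linarith), if_pos (by linarith), one_mul]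
        exact h6.symm.le.trans h5
      have heti := et_int h4 (d / 8) hb (x k)
      have hbd : ‖∫ w, hp (d / 8) x a k l w * et (d / 8) (w - x k)‖ ≤
          ∫ w, CC * K ^ 2 * et (d / 8) (w - x k) := by
        refine norm_integral_le_of_norm_le (heti.1.const_mul _) (Eventually.of_forall fun w => ?_)
        rw [Real.norm_eq_abs, abs_mul, abs_of_nonneg (et0 _)]
        exact mul_le_mul_of_nonneg_right
          (hp_bd (d / 8) K _ B x a hK hE hB' k l w) (et0 _)
      rw [integral_const_mul, heti.2, Real.norm_eq_abs] at hbd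
      have h6 := (le_abs_self _).trans hbd
      have h7 : CC * K ^ 2 * kap * 1 ≤ CC * K ^ 2 * kap *
          ∑ i, (if nr (x k - X i) < 3 / 2 * d then (1 : ℝ) else 0) *
            (if nr (x l - X i) < 3 / 2 * d then 1 else 0) :=
        mul_le_mul_of_nonneg_left hge hCK
      linarith
  -- sum
  have hcnt : ∑ k, ∑ l, ∑ i, (if nr (x k - X i) < 3 / 2 * d then (1 : ℝ) else 0) *
      (if nr (x l - X i) < 3 / 2 * d then 1 else 0) = ∑ i, cnt X (3 / 2 * d) x i ^ 2 := by
    have e : ∀ k, ∑ l, ∑ i, (if nr (x k - X i) < 3 / 2 * d then (1 : ℝ) else 0) *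
        (if nr (x l - X i) < 3 / 2 * d then 1 else 0) =
        ∑ i, ∑ l, (if nr (x k - X i) < 3 / 2 * d then (1 : ℝ) else 0) *
        (if nr (x l - X i) < 3 / 2 * d then 1 else 0) := fun k => Finset.sum_comm
    rw [Finset.sum_congr rfl fun k _ => e k, Finset.sum_comm]
    refine Finset.sum_congr rfl fun i _ => ?_
    unfold cnt
    rw [pow_two, Finset.sum_mul_sum]
  have htot : 0 ≤ kap * (∑ k, ∑ l, if d < nr (x k - x l) then Tq (x k - x l) (a k) (a l) else 0) +
      CC * K ^ 2 * kap * ∑ i, cnt X (3 / 2 * d) x i ^ 2 := by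
    refine hpos.trans ((Finset.sum_le_sum fun k _ => Finset.sum_le_sum fun l _ =>
      hone k l).trans (le_of_eq ?_))
    rw [← hcnt]
    simp only [Finset.sum_add_distrib, ← Finset.mul_sum]
  -- symmetry
  have hsym : (∑ k, ∑ l, if d < nr (x k - x l) then Tq (x k - x l) (a k) (a l) else 0) =
      2 * ∑ k, ∑ l, if k < l ∧ d < nr (x k - x l) then Tq (x k - x l) (a k) (a l) else 0 := by
    have e1 : ∀ k l, (if d < nr (x k - x l) then Tq (x k - x l) (a k) (a l) else 0) =
        (if k < l ∧ d < nr (x k - x l) then Tq (x k - x l) (a k) (a l) else 0) +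
        (if l < k ∧ d < nr (x l - x k) then Tq (x l - x k) (a l) (a k) else 0) := by
      intro k l
      have e2 : Tq (x l - x k) (a l) (a k) = Tq (x k - x l) (a k) (a l) := by
        rw [← dip_Tq_symm (x k - x l), neg_sub]
      rw [e2, nr_comm (x l) (x k)]
      rcases lt_trichotomy k l with h | h | h
      · simp [h, h.not_gt]
      · subst h
        have : ¬ d < nr (x k - x k) := by
          rw [sub_self]
          have : nr (0 : R3) = 0 := by
            unfold nr
            simp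
          rw [this]
          linarith
        rw [if_neg this, if_neg (fun hh => this hh.2), add_zero]
      · simp [h, h.not_gt]
    rw [Finset.sum_congr rfl fun k _ => Finset.sum_congr rfl fun l _ => e1 k l]
    simp only [Finset.sum_add_distrib]
    rw [two_mul]
    congr 1
    exact Finset.sum_comm
  rw [hsym] at htot
  set T : ℝ := ∑ k, ∑ l, if k < l ∧ d < nr (x k - x l) then Tq (x k - x l) (a k) (a l) else 0
  set N : ℝ := ∑ i, cnt X (3 / 2 * d) x i ^ 2
  have h8 : 0 ≤ kap * (2 * T + CC * K ^ 2 * N) := by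
    have : kap * (2 * T + CC * K ^ 2 * N) = kap * (2 * T) + CC * K ^ 2 * kap * N := by ring
    rw [this]
    exact htot
  have h9 : 0 ≤ 2 * T + CC * K ^ 2 * N := by
    by_contra h
    rw [not_le] at h
    have := mul_neg_of_pos_of_neg hkap h
    linarith
  nlinarith

end Pool.Agent.Helper12.HV
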